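import Pool.Agent.Lib.MP_1a91b9_ntX.DY.Td

/-!
# DY: the top without a condition at the places above `cj ϖ`

Port of MP_1a91b9_ntT/DY/Top.lean to the curves `y² = x³ + D`.
-/

set_option autoImplicit false

namespace Pool.Agent.Lib.MP_1a91b9_ntX.DY

open NumberField IsDedekindDomain WeierstrassCurve Pool.Agent.Lib.MP_1a91b9_ntT
open Pool.Agent.Lib.MP_1a91b9_ntX.DB Pool.Agent.Lib.MP_1a91b9_ntX.DX

universe u

variable [DD] [HC]

section
variable {F N N₂ L : Type u} [Field F] [NumberField F] [Algebra K F] [Field N] [NumberField N]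
  [Algebra K N] [Field N₂] [NumberField N₂] [Algebra K N₂] [Field L] [NumberField L] [Algebra K L]
  [Algebra F N] [Algebra F N₂] [Algebra F L] [Algebra N L] [Algebra N₂ L]
  [IsScalarTower K F N] [IsScalarTower K F N₂] [IsScalarTower K F L] [IsScalarTower K N L]
  [IsScalarTower K N₂ L] [IsScalarTower F N L] [IsScalarTower F N₂ L]
  [DecidableEq F] [DecidableEq N] [DecidableEq N₂] [DecidableEq L]
  [IsGalois F N] [IsGalois F N₂] [IsGalois F L]

  {ϖ : 𝓞 K} {ℓ q : ℕ} {P : Pt F} {P₀ : Pt N} {P₂ : Pt N₂} {ζ : L} {Q : Pt L}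
  (D : TD ϖ ℓ q P P₀ P₂ ζ Q)
include D

theorem td_vv
    (hun : ∀ v : HeightOneSpectrum (𝓞 F), v.valuation F (ℓ : F) < 1 → od v (ℓ : F) = 1)
    (h3 : DT ϖ F)
    (hker : ∀ v : HeightOneSpectrum (𝓞 F), v.valuation F (algebraMap K F (cj ϖ : K)) < 1 →
      Ker (v.valuation F) P)
    {φ : 𝓞 K →+ ZMod ℓ} (hφ : φ ≠ 0) {y : Nˣ} {α : L} (hK : KC F ϖ ℓ P₀ P₂ ζ Q φ y α)
    (hy : ¬ ∃ z : Nˣ, y = z ^ ℓ) : VV F ϖ ℓ P₀ y := by
  have iG : IsGalois N L := IsGalois.tower_top_of_isGalois F N L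
  have h := D.pd
  have hod : ∀ w : HeightOneSpectrum (𝓞 N), (ℓ : ℤ) ∣ od w (y : N) := by
    intro w
    by_cases hwc : w.valuation N (algebraMap K N (cj ϖ : K)) = 1
    · by_cases hw3 : w.valuation N (bD N) = 1
      · obtain ⟨W, rfl⟩ := CF.exists_over (k := N) (N := L) w
        have h3' : W.valuation L (bD L) = 1 := by
          have e := (val_map_eq W (bD N)).2 hw3
          rwa [bD, map_intCast] at e
        have hc' : W.valuation L (algebraMap K L (cj ϖ : K)) = 1 := by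
          have e := (val_map_eq W (algebraMap K N (cj ϖ : K))).2 hwc
          rwa [← IsScalarTower.algebraMap_apply K N L] at e
        exact dvd_od hK.pow W (D.unram W h3' hc')
      · have hlt : w.valuation N (bD N) < 1 := by
          refine lt_of_le_of_ne ?_ hw3
          exact v_int_le (w.valuation N) _
        obtain ⟨σ, hσ1, hσ2⟩ := h3 N P₀ D.full w hlt
        exact Iso.od_fix h D.full hK.iso hσ2 hσ1
    · have hlt : w.valuation N (algebraMap K N (cj ϖ : K)) < 1 :=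
        lt_of_le_of_ne (v_alg_le (w.valuation N) _) hwc
      rcases pd_cases h with ⟨-, hcop⟩ | ⟨hq, hi⟩
      · have hv : (w.under (𝓞 F)).valuation F (algebraMap K F (cj ϖ : K)) < 1 := by
          rw [← val_map_lt, ← IsScalarTower.algebraMap_apply K F N]
          exact hlt
        exact td_od D hcop hun hφ hK w hlt (hker _ hv)
      · rw [hi] at hlt
        obtain ⟨-, -, hg⟩ := ram_N h hun D.full w hlt
        obtain ⟨σ, hσ⟩ : ∃ σ : Gal(N/F), σ ≠ 1 := by
          have hc := Full.card h D.full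
          rw [← IsGalois.card_aut_eq_finrank F N] at hc
          have h5 := h.five
          have hq5 : 25 ≤ q := by
            rw [hq]
            nlinarith
          have h2 : 1 < Nat.card Gal(N/F) := by omega
          have : Nontrivial Gal(N/F) := Finite.one_lt_card_iff_nontrivial.1 h2
          exact exists_ne 1
        exact Iso.od_fix h D.full hK.iso (hg σ) hσ
  refine ⟨hod, hK.iso, ?_⟩
  intro w hw
  rcases pd_cases h with ⟨-, hcop⟩ | ⟨hq, hi⟩
  · have hn : ¬ ϖ ∣ cj ϖ := fun e => h.prime.not_isUnit (hcop.isUnit_of_dvd' dvd_rfl e)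
    have h1 := pd_val_coprime h hw hn
    have h2 := h.bad_pi hw
    obtain ⟨W, rfl⟩ := CF.exists_over (k := N) (N := L) w
    have h3' : W.valuation L (bD L) = 1 := by
      have e := (val_map_eq W (bD N)).2 h2
      rwa [bD, map_intCast] at e
    have hc' : W.valuation L (algebraMap K L (cj ϖ : K)) = 1 := by
      have e := (val_map_eq W (algebraMap K N (cj ϖ : K))).2 h1
      rwa [← IsScalarTower.algebraMap_apply K N L] at e
    have hw' : W.valuation L (algebraMap K L (ϖ : K)) < 1 := by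
      have e := (val_map_lt W (algebraMap K N (ϖ : K))).2 hw
      rwa [← IsScalarTower.algebraMap_apply K N L] at e
    exact wloc_unram h y.ne_zero hK.pow W (D.unram W h3' hc') hw'
  · obtain ⟨ht, hl, -⟩ := ram_N h hun D.full w hw
    have hv : (w.under (𝓞 F)).valuation F (algebraMap K F (cj ϖ : K)) < 1 := by
      rw [hi, ← val_map_lt, ← IsScalarTower.algebraMap_apply K F N]
      exact hw
    refine D.wloc_inert hi hq hφ hK hy w hw (hker _ hv) ht ?_ (hod w)
    rw [hl, hq]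
    push_cast
    ring

end

section
variable {ϖ : 𝓞 K} {ℓ q : ℕ} (h : PD ϖ ℓ q) {F : Type u} [Field F] [NumberField F] [Algebra K F]
  [DecidableEq F]
include h

theorem exists_divisor' (hV : VT ϖ ℓ F)
    (hun : ∀ v : HeightOneSpectrum (𝓞 F), v.valuation F (ℓ : F) < 1 → od v (ℓ : F) = 1)
    (h3 : DT ϖ F) (P : Pt F) : ∃ P' : Pt F, sm F (cj ϖ) P' = P := by
  by_contra hno
  obtain ⟨c, hc, hker⟩ := exists_ker_c (pd_cj h) P
  have hP' : ¬ ∃ S : Pt F, sm F (cj ϖ) S = sm F c P := by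
    rintro ⟨S, hS⟩
    apply hno
    obtain ⟨d, e, he⟩ := (pd_cj h).inv hc
    refine ⟨sm F d S - sm F e P, ?_⟩
    have h1 : sm F (cj ϖ) (sm F d S) = sm F (d * c) P := by
      have h2 : sm F (cj ϖ) (sm F d S) = sm F (d * cj ϖ) S := by
        rw [mul_comm, map_mul]
        rfl
      rw [h2, map_mul, map_mul]
      show sm F d (sm F (cj ϖ) S) = sm F d (sm F c P)
      rw [hS]
    have h2 : sm F (cj ϖ) (sm F e P) = sm F (c * d - 1) P := by
      rw [he, map_mul]
      rfl
    rw [map_sub, h1, h2, map_sub, map_one, mul_comm d c]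
    show sm F (c * d) P - (sm F (c * d) P - P) = P
    rw [sub_sub_cancel]
  obtain ⟨N, iN1, iN2, iN3, iN4, iN5, iN6, iN7, P₀, hP₀⟩ := exists_full h F hun
  obtain ⟨N₂, iM1, iM2, iM3, iM4, iM5, iM6, iM7, P₂, hP₂⟩ := exists_full (pd_cj h) F hun
  obtain ⟨L, iL1, iL2, iL3, iL4, iL5, iL6, iL7, iL8, iL9, iL10, iL11, iL12, iL13, ζ, Q, D⟩ :=
    exists_TD h hP₀ hP₂ (sm F c P)
  obtain ⟨φ, hφ, hφ0⟩ := exists_phi h
  obtain ⟨y, α, hK⟩ := D.exists_KC φ hφ0
  have hy : ¬ ∃ z : Nˣ, y = z ^ ℓ := KC.not_pow D hφ hK hP'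
  exact hy (hV N P₀ hP₀ y (td_vv D hun h3 hker hφ hK hy))

theorem top' (hV : VT ϖ ℓ F)
    (hun : ∀ v : HeightOneSpectrum (𝓞 F), v.valuation F (ℓ : F) < 1 → od v (ℓ : F) = 1)
    (h3 : DT ϖ F) : Finite (Pt F) :=
  finite_of_div h (exists_divisor' h hV hun h3)

end

end Pool.Agent.Lib.MP_1a91b9_ntX.DY
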